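import Mathlib
import Pool.Agent.R498.BK.Fin

/-!
# Baker's constant for almost primes is `1`, for all admissible equations
-/

set_option autoImplicit false

namespace Pool.Agent.Results.MP_3923f3_nt.AlmostPrimeSolutions

open Pool.Agent.R498.BK (NG)

/-- The admissible quadruples of the problem. -/
def Admissible (a b c d : ℤ) : Prop :=
  a ≠ 0 ∧ b ≠ 0 ∧ c ≠ 0 ∧ ¬ (0 < a ∧ 0 < b ∧ 0 < c) ∧ ¬ (a < 0 ∧ b < 0 ∧ c < 0) ∧ Even (a + b + c - d) ∧
  Int.gcd a (Int.gcd b c) = 1 ∧ Int.gcd d (Int.gcd a b) = 1 ∧ Int.gcd d (Int.gcd a c) = 1 ∧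
  Int.gcd d (Int.gcd b c) = 1

/-- `m(a, b, c) = max(3, |a|, |b|, |c|)`. -/
def mm (a b c : ℤ) : ℤ := max 3 (max |a| (max |b| |c|))

/-- `n` is positive and has at most `R` prime factors, counted with multiplicity, all of them at least `w`. -/
def AlmostPrime (R : ℕ) (w : ℝ) (n : ℕ) : Prop :=
  0 < n ∧ n.primeFactorsList.length ≤ R ∧ ∀ q : ℕ, q.Prime → q ∣ n → w ≤ q

theorem ng_of (x y z : ℤ) (h : Int.gcd x (Int.gcd y z) = 1) : NG x y z := by
  intro l hl hx hy hz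
  have h1 : (l : ℤ) ∣ ((Int.gcd x (Int.gcd y z) : ℕ) : ℤ) := Int.dvd_coe_gcd hx (Int.dvd_coe_gcd hy hz)
  rw [h] at h1
  have h2 : l ∣ 1 := by exact_mod_cast h1
  exact hl.one_lt.ne' (Nat.dvd_one.1 h2)

theorem lower (μ : ℝ) (hμ : μ < 1) (m₀ : ℤ) : ∃ a b c d : ℤ, Admissible a b c d ∧ m₀ ≤ mm a b c ∧
    ∀ p q r : ℕ, 0 < p → 0 < q → 0 < r → a * p + b * q + c * r = d →
      3 * |(d : ℝ)| + (mm a b c : ℝ) ^ μ < ((max p (max q r) : ℕ) : ℝ) := by
  have hlim := (tendsto_rpow_atTop (sub_pos.2 hμ)).eventually_gt_atTop 2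
  obtain ⟨M, hM⟩ := Filter.eventually_atTop.1 hlim
  set s : ℕ := 2 + m₀.toNat + ⌈M⌉₊ with hs
  have hs2 : (2 : ℤ) ≤ s := by rw [hs]; push_cast; omega
  have hsm : m₀ ≤ s := by
    have := Int.self_le_toNat m₀
    rw [hs]; push_cast; omega
  have hmm : mm 1 1 (-(2 * s)) = 2 * s := by
    unfold mm
    rw [abs_neg, abs_of_nonneg (by positivity : (0 : ℤ) ≤ 2 * s), abs_one]
    omega
  refine ⟨1, 1, -(2 * s), 0, ⟨by norm_num, by norm_num, by omega, by omega, by omega, ?_, by simp, by simp,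
    by simp, by simp⟩, by rw [hmm]; omega, ?_⟩
  · refine ⟨1 - s, by ring⟩
  · intro p q r hp hq hr he
    rw [hmm]
    have h1 : (2 * (s : ℤ)) ≤ p + q := by
      have h2 : (p : ℤ) + q = 2 * s * r := by linarith
      rw [h2]
      have : (1 : ℤ) ≤ r := by exact_mod_cast hr
      nlinarith
    have h3 : (s : ℤ) ≤ ((max p (max q r) : ℕ) : ℤ) := by
      push_cast
      omega
    have h4 : (s : ℝ) ≤ ((max p (max q r) : ℕ) : ℝ) := by exact_mod_cast h3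
    refine lt_of_lt_of_le ?_ h4
    have hsM : M ≤ (2 * (s : ℝ)) := by
      have h5 : M ≤ ⌈M⌉₊ := Nat.le_ceil M
      have h6 : ((⌈M⌉₊ : ℕ) : ℝ) ≤ s := by exact_mod_cast (by omega : ⌈M⌉₊ ≤ s)
      have h7 : (0 : ℝ) ≤ s := by positivity
      linarith
    have h5 := hM (2 * (s : ℝ)) hsM
    have hs0 : (0 : ℝ) < 2 * s := by
      have : (2 : ℝ) ≤ s := by exact_mod_cast hs2
      linarith
    have h6 : (2 * (s : ℝ)) ^ (1 - μ) * (2 * (s : ℝ)) ^ μ = 2 * s := by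
      rw [← Real.rpow_add hs0, sub_add_cancel, Real.rpow_one]
    have h7 : 0 < (2 * (s : ℝ)) ^ μ := by positivity
    have h8 : 2 * (2 * (s : ℝ)) ^ μ < 2 * s := by
      calc 2 * (2 * (s : ℝ)) ^ μ < (2 * (s : ℝ)) ^ (1 - μ) * (2 * (s : ℝ)) ^ μ := by gcongr
        _ = 2 * s := h6
    push_cast
    rw [abs_zero]
    linarith

/-- **The almost prime form of the conjecture `M = 1`, for all admissible quadruples.** (1) For every `ε > 0` there
are `R`, `Z₀` and `δ > 0` such that every admissible equation `a p + b q + c r = d` with `|d| + m ≥ Z₀` has a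
solution in positive integers `p, q, r` with at most `R` prime factors each, all of them at least `(|d| + m) ^ δ`,
and `max(p, q, r) ≤ 3 |d| + m ^ (1 + ε)`. (2) The exponent `1` is best possible: for every `μ < 1` there are
admissible quadruples with `m` arbitrarily large for which every solution in positive integers has
`max(p, q, r) > 3 |d| + m ^ μ`. -/
theorem result :
    (∀ ε : ℝ, 0 < ε → ∃ (R : ℕ) (Z₀ : ℕ) (δ : ℝ), 0 < δ ∧ ∀ a b c d : ℤ, Admissible a b c d →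
      (Z₀ : ℤ) ≤ |d| + mm a b c → ∃ p q r : ℕ,
        AlmostPrime R (((|d| + mm a b c : ℤ) : ℝ) ^ δ) p ∧ AlmostPrime R (((|d| + mm a b c : ℤ) : ℝ) ^ δ) q ∧
        AlmostPrime R (((|d| + mm a b c : ℤ) : ℝ) ^ δ) r ∧ a * p + b * q + c * r = d ∧
        ((max p (max q r) : ℕ) : ℝ) ≤ 3 * |(d : ℝ)| + (mm a b c : ℝ) ^ (1 + ε)) ∧
    (∀ μ : ℝ, μ < 1 → ∀ m₀ : ℤ, ∃ a b c d : ℤ, Admissible a b c d ∧ m₀ ≤ mm a b c ∧
      ∀ p q r : ℕ, 0 < p → 0 < q → 0 < r → a * p + b * q + c * r = d →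
        3 * |(d : ℝ)| + (mm a b c : ℝ) ^ μ < ((max p (max q r) : ℕ) : ℝ)) := by
  refine ⟨fun ε hε => ?_, lower⟩
  obtain ⟨R, Z₀, δ, hδ, h⟩ := Pool.Agent.R498.BK.almost ε hε
  refine ⟨R, Z₀, δ, hδ, ?_⟩
  rintro a b c d ⟨ha, hb, hc, hs1, hs2, hpar, g1, g2, g3, g4⟩ hZ
  have hr : ∀ x y z : ℤ, NG x y z → NG y z x := fun x y z h => h.r1.r2
  exact h a b c d (mm a b c) ha hb hc hs1 hs2 (ng_of _ _ _ g1) (hr _ _ _ (ng_of _ _ _ g2))
    (hr _ _ _ (ng_of _ _ _ g3)) (hr _ _ _ (ng_of _ _ _ g4)) (even_iff_two_dvd.1 hpar) rfl hZ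

end Pool.Agent.Results.MP_3923f3_nt.AlmostPrimeSolutions
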