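import Mathlib

/-!
# MP_3923f3_nt: the constant of Baker is larger than one

With the definition used in the problem (a real number `μ` is good if **every** admissible equation
`a p + b q + c r = d` has a solution in primes with `max(p, q, r) ≤ 3 |d| + m ^ μ`, where
`m = max(3, |a|, |b|, |c|)`), the equation `3 p + 2 q = r`, whose least solution in primes is
`(3, 2, 13)`, shows that every good `μ` satisfies `3 ^ μ ≥ 13`.
-/

set_option autoImplicit false

namespace Pool.Agent.Results.MP_3923f3_nt.ConstantAboveTwo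

/-- Admissible quadruples: `a`, `b`, `c` are nonzero and not all of the same sign, `a + b + c - d` is
even, and each of `gcd(a, b, c)`, `gcd(d, a, b)`, `gcd(d, a, c)`, `gcd(d, b, c)` equals `1`. -/
structure Admissible (a b c d : ℤ) : Prop where
  a_ne : a ≠ 0
  b_ne : b ≠ 0
  c_ne : c ≠ 0
  not_pos : ¬ (0 < a ∧ 0 < b ∧ 0 < c)
  not_neg : ¬ (a < 0 ∧ b < 0 ∧ c < 0)
  even : Even (a + b + c - d)
  gcd_abc : Int.gcd (Int.gcd a b) c = 1
  gcd_dab : Int.gcd (Int.gcd d a) b = 1
  gcd_dac : Int.gcd (Int.gcd d a) c = 1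
  gcd_dbc : Int.gcd (Int.gcd d b) c = 1

/-- `μ` is good: for every admissible quadruple the equation `a p + b q + c r = d` has a solution in
primes with `max(p, q, r) ≤ 3 |d| + m ^ μ`, `m = max(3, |a|, |b|, |c|)`. -/
def Good (μ : ℝ) : Prop :=
  ∀ a b c d : ℤ, Admissible a b c d →
    ∃ p q r : ℕ, p.Prime ∧ q.Prime ∧ r.Prime ∧ a * p + b * q + c * r = d ∧
      ((max p (max q r) : ℕ) : ℝ) ≤
        3 * |(d : ℝ)| + ((max 3 (max |a| (max |b| |c|)) : ℤ) : ℝ) ^ μ

lemma admissible_one : Admissible 3 2 (-1) 0 where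
  a_ne := by norm_num
  b_ne := by norm_num
  c_ne := by norm_num
  not_pos := by norm_num
  not_neg := by norm_num
  even := by decide
  gcd_abc := by decide
  gcd_dab := by decide
  gcd_dac := by decide
  gcd_dbc := by decide

lemma ge_thirteen {p q r : ℕ} (hp : p.Prime) (hq : q.Prime) (hr : r.Prime) (h : 3 * p + 2 * q = r) :
    13 ≤ r := by
  have h1 := hp.two_le
  have h2 := hq.two_le
  have h3 : p ≠ 2 := by
    rintro rfl
    have h4 : 2 ∣ r := ⟨3 + q, by omega⟩
    have h5 := (Nat.prime_dvd_prime_iff_eq Nat.prime_two hr).mp h4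
    omega
  omega

lemma good_bound {μ : ℝ} (h : Good μ) : Real.log 13 / Real.log 3 ≤ μ := by
  obtain ⟨p, q, r, hp, hq, hr, heq, hle⟩ := h 3 2 (-1) 0 admissible_one
  have h1 : 3 * p + 2 * q = r := by
    have : (3 * p + 2 * q : ℤ) = r := by linarith
    exact_mod_cast this
  have h2 := ge_thirteen hp hq hr h1
  have h3 : (13 : ℝ) ≤ ((max p (max q r) : ℕ) : ℝ) := by
    have : 13 ≤ max p (max q r) := h2.trans ((le_max_right _ _).trans (le_max_right _ _))
    exact_mod_cast this
  have h4 : ((max 3 (max |(3 : ℤ)| (max |2| |(-1)|)) : ℤ) : ℝ) = 3 := by norm_num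
  rw [h4] at hle
  have h5 : (13 : ℝ) ≤ 3 ^ μ := by
    have : 3 * |((0 : ℤ) : ℝ)| = 0 := by simp
    linarith
  have hl3 : (0 : ℝ) < Real.log 3 := Real.log_pos (by norm_num)
  rw [div_le_iff₀ hl3]
  have h6 := Real.log_le_log (by norm_num) h5
  rwa [Real.log_rpow (by norm_num)] at h6

lemma numeric : (2.33 : ℝ) < Real.log 13 / Real.log 3 := by
  have hl3 : (0 : ℝ) < Real.log 3 := Real.log_pos (by norm_num)
  rw [lt_div_iff₀ hl3]
  have h1 : Real.log ((3 : ℝ) ^ 233) < Real.log ((13 : ℝ) ^ 100) :=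
    Real.log_lt_log (by positivity) (by norm_num)
  rw [Real.log_pow, Real.log_pow] at h1
  push_cast at h1
  linarith

/-- **Every good exponent is at least `log 13 / log 3 > 2.33`**; hence the constant of Baker `M`, the
infimum of the good exponents, is at least `log 13 / log 3`, and `M ≠ 1`. -/
theorem result :
    (2.33 : ℝ) < Real.log 13 / Real.log 3 ∧
    (∀ μ : ℝ, Good μ → Real.log 13 / Real.log 3 ≤ μ) ∧
    (∀ M : ℝ, IsGLB {μ : ℝ | Good μ} M → Real.log 13 / Real.log 3 ≤ M ∧ M ≠ 1) := by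
  have key : ∀ M : ℝ, IsGLB {μ : ℝ | Good μ} M → Real.log 13 / Real.log 3 ≤ M := by
    intro M hM
    exact hM.2 (fun μ hμ => good_bound hμ)
  refine ⟨numeric, fun μ h => good_bound h, fun M hM => ⟨key M hM, ?_⟩⟩
  have h1 := key M hM
  have h2 := numeric
  intro h3
  rw [h3] at h1
  linarith

end Pool.Agent.Results.MP_3923f3_nt.ConstantAboveTwo
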