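import Pool.Agent.R460.BK.Two

/-!
# MP_3923f3_nt: the equations `± p ± q + c r = d` have solutions in primes up to `3 |d| + |c| ^ (10 / 7 + ε)`,
for EVERY large `c`

A quadruple `(a, b, c, d)` of integers is admissible (`Admissible`) if `a`, `b`, `c` are nonzero and
not all of the same sign, `a + b + c - d` is even, and each of `gcd(a, b, c)`, `gcd(d, a, b)`,
`gcd(d, a, c)`, `gcd(d, b, c)` is one. The constant of Baker is the infimum of the exponents `μ` for
which every admissible equation `a p + b q + c r = d` has a solution in primes with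

  `max(p, q, r) ≤ 3 |d| + m ^ μ`, `m = max(3, |a|, |b|, |c|)`   (`SmallSolution μ a b c d`).

It is known that it is at most `45`, and at most `4` on the generalized Riemann hypothesis.

**Theorem.** Let `ε > 0` and `T` be given. **All** admissible equations with `|a| = |b| = 1`, `|c|` sufficiently
large and `gcd(c, d) ≤ (log |c|) ^ T` have a solution in primes with

  `max(p, q, r) ≤ 3 |d| + m ^ (10 / 7 + ε)`.

No `c` is excluded. The exponents known before in this case were `2 + ε` for all `c` (from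
`PairwiseCoprimeCoefficients`) and `3 / 2 + ε` for the `c` which are not multiples of the members of a sparse set
(`OneLargeCoefficient`).

Proof. By `R460/GS` and `R460/GP`, for every modulus `c ≤ N ^ (7 / 10 - ρ)` and every residue class `e` modulo `c`
whose greatest common divisor with `c` is at most a power of the logarithm, all but `N / (c (log N) ^ 3)` of the even
numbers up to `N` in the class are sums of two primes, and all but `N / (c (log N) ^ 3)` of them are differences of
two primes `p - q` with `q ≤ N / (log N) ^ 3`. The numbers `c r + e` with primes `r` in an interval `(y, 4 y]`,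
where `c y` has the order of `N`, are `≫ N / (c log N)` members of the class, so one of them is no exception.
-/

set_option autoImplicit false

namespace Pool.Agent.Results.MP_3923f3_nt.OneLargeCoefficientTenSevenths

/-- Admissible quadruples: `a`, `b`, `c` are nonzero and not all of the same sign, `a + b + c - d` is
even, and each of `gcd(a, b, c)`, `gcd(d, a, b)`, `gcd(d, a, c)`, `gcd(d, b, c)` equals `1`. -/
structure Admissible (a b c d : ℤ) : Prop where
  a_ne : a ≠ 0
  b_ne : b ≠ 0
  c_ne : c ≠ 0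
  not_pos : ¬ (0 < a ∧ 0 < b ∧ 0 < c)
  not_neg : ¬ (a < 0 ∧ b < 0 ∧ c < 0)
  even : Even (a + b + c - d)
  gcd_abc : Int.gcd (Int.gcd a b) c = 1
  gcd_dab : Int.gcd (Int.gcd d a) b = 1
  gcd_dac : Int.gcd (Int.gcd d a) c = 1
  gcd_dbc : Int.gcd (Int.gcd d b) c = 1

/-- The equation `a p + b q + c r = d` has a solution in primes with `max(p, q, r) ≤ 3 |d| + m ^ μ`,
`m = max(3, |a|, |b|, |c|)`. -/
def SmallSolution (μ : ℝ) (a b c d : ℤ) : Prop :=
  ∃ p q r : ℕ, p.Prime ∧ q.Prime ∧ r.Prime ∧ a * p + b * q + c * r = d ∧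
    ((max p (max q r) : ℕ) : ℝ) ≤ 3 * |(d : ℝ)| + ((max 3 (max |a| (max |b| |c|)) : ℤ) : ℝ) ^ μ

/-- For all `ε > 0` and `T` there is `c₀` such that **all** admissible equations `a p + b q + c r = d` with
`|a| = |b| = 1`, `|c| ≥ c₀` and `gcd(c, d) ≤ (log |c|) ^ T` have a solution in primes with
`max(p, q, r) ≤ 3 |d| + |c| ^ (10 / 7 + ε)`. -/
theorem result (ε : ℝ) (hε : 0 < ε) (T : ℕ) : ∃ c₀ : ℕ, ∀ a b c d : ℤ, Admissible a b c d → |a| = 1 → |b| = 1 →
    (c₀ : ℤ) ≤ |c| → (Int.gcd c d : ℝ) ≤ Real.log |(c : ℝ)| ^ T →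
      (∃ p q r : ℕ, p.Prime ∧ q.Prime ∧ r.Prime ∧ a * p + b * q + c * r = d ∧
        ((max p (max q r) : ℕ) : ℝ) ≤ 3 * |(d : ℝ)| + |(c : ℝ)| ^ (10 / 7 + ε)) ∧
      SmallSolution (10 / 7 + ε) a b c d := by
  obtain ⟨C₁, h1⟩ := Pool.Agent.R460.BK.eq_add hε T
  obtain ⟨C₂, h2⟩ := Pool.Agent.R460.BK.eq_sub hε T
  refine ⟨C₁ + C₂ + 3, fun a b c d hadm ha hb hc hg => ?_⟩
  have key : ∃ p q r : ℕ, p.Prime ∧ q.Prime ∧ r.Prime ∧ a * p + b * q + c * r = d ∧
        ((max p (max q r) : ℕ) : ℝ) ≤ 3 * |(d : ℝ)| + |(c : ℝ)| ^ (10 / 7 + ε) := by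
    obtain ⟨C, hC⟩ : ∃ C, C = c.natAbs := ⟨_, rfl⟩
    have hCr : (C : ℝ) = |(c : ℝ)| := by rw [hC]; exact Nat.cast_natAbs c |>.trans (by push_cast; rfl)
    have hCZ : (C : ℤ) = |c| := by rw [hC]; exact Int.natCast_natAbs c
    have hCge : C₁ + C₂ + 3 ≤ C := by
      have : ((C₁ + C₂ + 3 : ℕ) : ℤ) ≤ C := by rw [hCZ]; exact hc
      exact_mod_cast this
    rw [← hCr] at hg ⊢
    have hg1 : (Int.gcd d C : ℝ) ≤ Real.log C ^ T := by
      have : Int.gcd d C = Int.gcd c d := by
        rw [hCZ, Int.gcd_comm]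
        rcases abs_cases c with h | h
        · rw [h.1]
        · rw [h.1, Int.neg_gcd]
      rw [this]
      exact hg
    have hg2 : (Int.gcd (-d) C : ℝ) ≤ Real.log C ^ T := by
      rw [Int.neg_gcd]
      exact hg1
    have heven := hadm.even
    rw [Int.even_iff] at heven
    have ha' : a = 1 ∨ a = -1 := by
      rcases abs_cases a with h | h <;> omega
    have hb' : b = 1 ∨ b = -1 := by
      rcases abs_cases b with h | h <;> omega
    have hpar : (2 : ℤ) ∣ C + d := by
      rcases abs_cases c with h | h <;> rcases ha' with h3 | h3 <;> rcases hb' with h4 | h4 <;> omega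
    have hpar' : (2 : ℤ) ∣ C + -d := by
      omega
    have hneg : |((-d : ℤ) : ℝ)| = |(d : ℝ)| := by push_cast; exact abs_neg _
    have hn1 := hadm.not_pos
    have hn2 := hadm.not_neg
    have hc0 := hadm.c_ne
    rcases ha' with h3 | h3 <;> rcases hb' with h4 | h4
    · -- `p + q + c r = d`, `c < 0`
      have hcneg : c < 0 := by
        by_contra hcon
        exact hn1 ⟨by omega, by omega, by omega⟩
      have hCc : (C : ℤ) = -c := by rw [hCZ]; exact abs_of_neg hcneg
      obtain ⟨p, q, r, k1, k2, k3, k4, k5⟩ := h1 C (by omega) d hg1 hpar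
      refine ⟨p, q, r, k1, k2, k3, ?_, k5⟩
      rw [h3, h4]
      rw [hCc] at k4
      linear_combination k4
    · -- `p - q + c r = d`
      rcases lt_or_gt_of_ne hc0 with hcn | hcp
      · have hCc : (C : ℤ) = -c := by rw [hCZ]; exact abs_of_neg hcn
        obtain ⟨p, q, r, k1, k2, k3, k4, k5⟩ := h2 C (by omega) d hg1 hpar
        refine ⟨p, q, r, k1, k2, k3, ?_, k5⟩
        rw [h3, h4]
        rw [hCc] at k4
        linear_combination k4
      · have hCc : (C : ℤ) = c := by rw [hCZ]; exact abs_of_pos hcp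
        obtain ⟨p, q, r, k1, k2, k3, k4, k5⟩ := h2 C (by omega) (-d) hg2 hpar'
        refine ⟨q, p, r, k2, k1, k3, ?_, ?_⟩
        · rw [h3, h4]
          rw [hCc] at k4
          linear_combination -k4
        · rw [hneg] at k5
          rwa [max_left_comm]
    · -- `- p + q + c r = d`
      rcases lt_or_gt_of_ne hc0 with hcn | hcp
      · have hCc : (C : ℤ) = -c := by rw [hCZ]; exact abs_of_neg hcn
        obtain ⟨p, q, r, k1, k2, k3, k4, k5⟩ := h2 C (by omega) d hg1 hpar
        refine ⟨q, p, r, k2, k1, k3, ?_, ?_⟩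
        · rw [h3, h4]
          rw [hCc] at k4
          linear_combination k4
        · rwa [max_left_comm]
      · have hCc : (C : ℤ) = c := by rw [hCZ]; exact abs_of_pos hcp
        obtain ⟨p, q, r, k1, k2, k3, k4, k5⟩ := h2 C (by omega) (-d) hg2 hpar'
        refine ⟨p, q, r, k1, k2, k3, ?_, ?_⟩
        · rw [h3, h4]
          rw [hCc] at k4
          linear_combination -k4
        · rwa [hneg] at k5
    · -- `- p - q + c r = d`, `c > 0`
      have hcpos : 0 < c := by
        by_contra hcon
        exact hn2 ⟨by omega, by omega, by omega⟩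
      have hCc : (C : ℤ) = c := by rw [hCZ]; exact abs_of_pos hcpos
      obtain ⟨p, q, r, k1, k2, k3, k4, k5⟩ := h1 C (by omega) (-d) hg2 hpar'
      refine ⟨p, q, r, k1, k2, k3, ?_, ?_⟩
      · rw [h3, h4]
        rw [hCc] at k4
        linear_combination -k4
      · rwa [hneg] at k5
  refine ⟨key, ?_⟩
  obtain ⟨p, q, r, k1, k2, k3, k4, k5⟩ := key
  refine ⟨p, q, r, k1, k2, k3, k4, k5.trans ?_⟩
  have hm : max 3 (max |a| (max |b| |c|)) = |c| := by
    rw [ha, hb]
    omega
  rw [hm]
  push_cast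
  exact le_rfl

end Pool.Agent.Results.MP_3923f3_nt.OneLargeCoefficientTenSevenths
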