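import Mathlib
import Pool.Agent.R498.BK.OneQ

/-!
# Small solutions of `a p + b q + c s = d` in one prime and two almost primes
-/

set_option autoImplicit false

namespace Pool.Agent.Results.MP_3923f3_nt.OnePrimeTwoAlmostPrimes

open Pool.Agent.R498.BK (NG)

/-- The admissible quadruples of the problem. -/
def Admissible (a b c d : ℤ) : Prop :=
  a ≠ 0 ∧ b ≠ 0 ∧ c ≠ 0 ∧ ¬ (0 < a ∧ 0 < b ∧ 0 < c) ∧ ¬ (a < 0 ∧ b < 0 ∧ c < 0) ∧ Even (a + b + c - d) ∧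
  Int.gcd a (Int.gcd b c) = 1 ∧ Int.gcd d (Int.gcd a b) = 1 ∧ Int.gcd d (Int.gcd a c) = 1 ∧
  Int.gcd d (Int.gcd b c) = 1

/-- `m(a, b, c) = max(3, |a|, |b|, |c|)`. -/
def mm (a b c : ℤ) : ℤ := max 3 (max |a| (max |b| |c|))

/-- `n` is positive and has at most `R` prime factors, counted with multiplicity, all of them at least `w`. -/
def AlmostPrime (R : ℕ) (w : ℝ) (n : ℕ) : Prop :=
  0 < n ∧ n.primeFactorsList.length ≤ R ∧ ∀ q : ℕ, q.Prime → q ∣ n → w ≤ q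

/-- The `j`-th prime: `pr 1 = 2`, `pr 2 = 3`, and so on. -/
noncomputable def pr (j : ℕ) : ℕ := Nat.nth Nat.Prime (j - 1)

theorem ng_of (x y z : ℤ) (h : Int.gcd x (Int.gcd y z) = 1) : NG x y z := by
  intro l hl hx hy hz
  have h1 : (l : ℤ) ∣ ((Int.gcd x (Int.gcd y z) : ℕ) : ℤ) := Int.dvd_coe_gcd hx (Int.dvd_coe_gcd hy hz)
  rw [h] at h1
  have h2 : l ∣ 1 := by exact_mod_cast h1
  exact hl.one_lt.ne' (Nat.dvd_one.1 h2)

/-- **If the coefficients `b`, `c` are coprime and of opposite signs, then `p` can be taken prime.** Let `u ≥ 1`,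
`r ≥ 0` and `ε > 0`. There are `C`, `R` and `δ > 0` such that for every `b₀` and all admissible quadruples with
`b c < 0`, `gcd(b, c) = 1` and `|d| + m` sufficiently large, there is a `t ≥ 1` such that the `r + 1` primes
`p = p(j)`, `j = u t + b₀, ..., u (t + r) + b₀`, lie in `[(|d| + m) ^ δ, (|d| + m) ^ ε]`, in an interval of length
at most `C`, and for each of them the equation `a p + b q + c s = d` has a solution `q, s` with at most `R` prime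
factors each, all of them at least `(|d| + m) ^ δ`, and `max(p, q, s) ≤ 3 |d| + m ^ (1 + ε)`. -/
theorem result (u r : ℕ) (hu : 0 < u) (ε : ℝ) (hε : 0 < ε) : ∃ (C R : ℕ) (δ : ℝ), 0 < δ ∧
    ∀ b₀ : ℕ, ∃ Z₀ : ℕ, ∀ a b c d : ℤ, Admissible a b c d → b * c < 0 → Int.gcd b c = 1 →
      (Z₀ : ℤ) ≤ |d| + mm a b c →
      ∃ t : ℕ, 0 < t ∧ ((|d| + mm a b c : ℤ) : ℝ) ^ δ ≤ pr (u * t + b₀) ∧
        (pr (u * (t + r) + b₀) : ℝ) ≤ ((|d| + mm a b c : ℤ) : ℝ) ^ ε ∧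
        pr (u * (t + r) + b₀) ≤ pr (u * t + b₀) + C ∧
        ∀ j ≤ r, ∃ q s : ℕ, AlmostPrime R (((|d| + mm a b c : ℤ) : ℝ) ^ δ) q ∧
          AlmostPrime R (((|d| + mm a b c : ℤ) : ℝ) ^ δ) s ∧
          a * (pr (u * (t + j) + b₀) : ℕ) + b * q + c * s = d ∧
          ((max (pr (u * (t + j) + b₀)) (max q s) : ℕ) : ℝ) ≤ 3 * |(d : ℝ)| + (mm a b c : ℝ) ^ (1 + ε) := by
  obtain ⟨C, R, δ, hδ, h⟩ := Pool.Agent.R498.BK.onep u r hu ε hε
  refine ⟨C, R, δ, hδ, fun b₀ => ?_⟩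
  obtain ⟨Z₀, hZ₀⟩ := h b₀
  refine ⟨Z₀, ?_⟩
  rintro a b c d ⟨ha, hb, hc, hs1, hs2, hpar, g1, g2, g3, g4⟩ hbc hco hZ
  have hr : ∀ x y z : ℤ, NG x y z → NG y z x := fun x y z h => h.r1.r2
  exact hZ₀ a b c d (mm a b c) ha hbc (Int.isCoprime_iff_gcd_eq_one.2 hco) (hr _ _ _ (ng_of _ _ _ g2))
    (hr _ _ _ (ng_of _ _ _ g3)) (even_iff_two_dvd.1 hpar) rfl hZ

end Pool.Agent.Results.MP_3923f3_nt.OnePrimeTwoAlmostPrimes
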